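import Pool.Agent.X96.DM.Fin

/-!
Global regularity for the Navier-Stokes equations on the torus with weights on the triads of helical
modes: the strong triads of mixed helicity are thinned out, all other interactions are kept.

A helical mode is a pair `(k, σ)` of a frequency `k ∈ ℤ³` and a sign `σ` (`Bool`, `true` for `+`).
The nonlinear term `nonl η U k` is the projection of the convection term, where the interaction of
the modes `(p, s)` and `(q, t)`, `p + q = k`, in the mode `(k, r)` is multiplied by the weight
`η (-k, r) (p, s) (q, t)`. With all weights equal to one these are the Navier-Stokes equations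
(`isSolW_one`: every smooth periodic solution with mean zero of the Navier-Stokes equations
satisfies them). The length `|k|` is `kn k`.
-/

open MeasureTheory Set H459R3.NS Pool.Agent.X96.HT Pool.Agent.X96.DM
open scoped ContDiff

set_option autoImplicit false

/-- Let `η` be a bounded weight on the triads of helical modes (`IsWeight`: a symmetric function of
the three modes which does not change if all three frequencies change the sign), `K ≥ 0`,
`0 ≤ θ₁ < 4/5` and `0 ≤ θ₂ < 6/7`. No condition is imposed on the triads of equal signs of helicity,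
on the collinear triads, on the triads whose shortest frequency is not longer than `K M^θ₁`, where
`M` is the length of the longest one, and on the triads `(a, s), (b, s), (c, -s)` such that `c` is
not longer than `K m^θ₂`, where `m` is the length of the longer one of `a` and `b`.

Suppose that for the remaining triads (the strong triads of mixed helicity)
`|η| ≤ w a b + w b c + w c a`, where `w ≥ 0` has density two up to a logarithm (`DensTwo`): for all
`k` and `r ≥ 1` the sum of `(w k p)²` over all `p` such that `k`, `p`, `k + p` are not longer than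
`r` is at most `A r² log (3 + r)`.

Then for every `ν > 0` and for every smooth periodic divergence-free field `u₀` with mean zero the
equations with weights `η` have a solution `u` which is smooth on `[0, ∞) × ℝ³` with `u(0) = u₀`. Its
Fourier coefficients decrease rapidly, uniformly in the time, and every smooth solution on a time
interval `[0, T)` with the same initial field coincides with `u`. -/
theorem Pool.Agent.Results.MP_6bf1e5_an.HelicalWeights.result
    (η : Md → Md → Md → ℝ) (hη : IsWeight η) (w : K3 → K3 → ℝ) {A K θ₁ θ₂ : ℝ} (hK : 0 ≤ K)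
    (hθ₁ : θ₁ ∈ Ico (0 : ℝ) (4 / 5)) (hθ₂ : θ₂ ∈ Ico (0 : ℝ) (6 / 7)) (hw : DensTwo w A)
    (hηw : StrongThin η w K θ₁ θ₂) {ν : ℝ} (hν : 0 < ν) (u₀ : V → V) (hs : ContDiff ℝ ∞ u₀)
    (hper : Per u₀) (hdiv : ∀ x, ∑ i, pd i (fun y => u₀ y i) x = 0)
    (hmean : ∀ i, ∫ x in cube, u₀ x i = 0) :
    ∃ u : ℝ → V → V, IsSolW η ν (Ici 0) u ∧ u 0 = u₀ ∧
      (∀ n : ℕ, ∃ B : ℝ, ∀ t, 0 ≤ t → ∀ k, kn k ^ n * ‖co (u t) k‖ ≤ B) ∧
      ∀ (T : ℝ) (v : ℝ → V → V), IsSolW η ν (Ico 0 T) v → v 0 = u₀ →
        ∀ t ∈ Ico 0 T, v t = u t :=
  main_thin hη hK hθ₁.1 hθ₁.2 hθ₂.1 hθ₂.2 hw hηw hν hs hper hdiv hmean
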