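import Pool.Agent.X97.FN.Main

/-!
# MP_6bf1e5_an: smooth global solutions which visit arbitrary states of a critical space

Let `ν > 0`, `q > 2`, `ε > 0` and `L > 1`, and let `u₀, …, u_m` be any velocities on `𝕋³` (real,
mean-zero, divergence-free distributions, of any size) of the critical Fourier-Besov space
`FB^{-1}_{1,q}`, with the norm `(∑_j (2^{-j} ∑_{2^j ≤ |k| < 2^{j+1}} |û(k)|)^q)^{1/q}`. There is a
solution of the three-dimensional Navier-Stokes equations, smooth on `[0, ∞) × 𝕋³`, and there are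
intervals `[a_0, b_0], …, [a_m, b_m]` in `[0, ε)`, one after the other, with `a_0 = 0` and
`b_j ≥ L a_j`, such that

* `‖u(t) - u_j‖ ≤ ε` in `FB^{-1}_{1,q}` for all `t ∈ [a_j, b_j]`, `0 ≤ j ≤ m`;
* the initial velocity is a trigonometric polynomial, and it has the Fourier coefficients of `u₀` at
  all frequencies `k` with `|k_j| ≤ K` (`K` is arbitrary);
* the kinetic energy is at most `ε` from the time `ε` on.

So arbitrarily close to every state there are smooth global solutions which pass close to any other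
given states, in any given order and within any given time.
-/

open MeasureTheory Set

namespace Pool.Agent.Results.MP_6bf1e5_an.VisitsAllStates

open H459R3.NS Pool.Agent.X97

/-- the frequencies `k ∈ ℤ³` with `2 ^ j ≤ max_i |k_i| < 2 ^ (j + 1)` -/
noncomputable def shell (j : ℕ) : Finset (Fin 3 → ℤ) :=
  (Finset.Icc (fun _ => -(2 : ℤ) ^ (j + 1)) (fun _ => (2 : ℤ) ^ (j + 1))).filter fun k =>
    (∀ i, |k i| < 2 ^ (j + 1)) ∧ ∃ i, 2 ^ j ≤ |k i|

/-- `2^{-j}` times the sum of the lengths of the Fourier coefficients over the shell `j` -/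
noncomputable def block (f : (Fin 3 → ℤ) → Fin 3 → ℂ) (j : ℕ) : ℝ :=
  ((2 : ℝ) ^ j)⁻¹ * ∑ k ∈ shell j, ‖f k‖

/-- `c` is the family of the Fourier coefficients of a real mean-zero divergence-free distribution
on the torus with a finite norm `(∑_j (block c j)^q)^{1/q}` in the space `FB^{-1}_{1,q}`. -/
structure State (q : ℝ) (c : (Fin 3 → ℤ) → Fin 3 → ℂ) : Prop where
  real : ∀ k i, c (-k) i = (starRingEnd ℂ) (c k i)
  mean : c 0 = 0
  div : ∀ k, ∑ j, (k j : ℂ) * c k j = 0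
  fin : Summable fun j => block c j ^ q

/-- The distance of the field `v` and the state `c` in the space `FB^{-1}_{1,q}` is at most `ε`. -/
def Near (q ε : ℝ) (v : V → V) (c : (Fin 3 → ℤ) → Fin 3 → ℂ) : Prop :=
  (Summable fun j => block (fun k i => fr (fun x => v x i) k - c k i) j ^ q) ∧
    ∑' j, block (fun k i => fr (fun x => v x i) k - c k i) j ^ q ≤ ε ^ q

lemma N_lt_iff {k : K3} {M : ℕ} (hM : 0 < M) : N k < M ↔ ∀ i, |k i| < (M : ℤ) := by
  have h := N_le_iff k (M - 1)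
  have e : N k < M ↔ N k ≤ M - 1 := by omega
  rw [e, h]
  have h2 : (((M - 1 : ℕ) : ℤ)) = (M : ℤ) - 1 := by
    push_cast [Nat.cast_sub hM]
    ring
  refine forall_congr' fun i => ?_
  rw [h2]
  omega

lemma shell_eq (j : ℕ) : shell j = FN.shl j := by
  ext k
  rw [FN.mem_shl, shell, Finset.mem_filter, Finset.mem_Icc]
  have h1 : N k < 2 ^ (j + 1) ↔ ∀ i, |k i| < 2 ^ (j + 1) := by
    have := N_lt_iff (k := k) (Nat.two_pow_pos (j + 1))
    push_cast at this
    exact this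
  have h2 : N k < 2 ^ j ↔ ∀ i, |k i| < 2 ^ j := by
    have := N_lt_iff (k := k) (Nat.two_pow_pos j)
    push_cast at this
    exact this
  have h3 : 2 ^ j ≤ N k ↔ ∃ i, 2 ^ j ≤ |k i| := by
    rw [← not_lt, h2]
    push Not
    rfl
  rw [h1, h3]
  constructor
  · exact fun h => ⟨h.2.2, h.2.1⟩
  · refine fun h => ⟨⟨fun i => ?_, fun i => ?_⟩, h.2, h.1⟩
    · have := (abs_lt.1 (h.2 i)).1
      exact this.le
    · have := (abs_lt.1 (h.2 i)).2
      exact this.le

lemma block_eq : block = FN.bk := by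
  funext f j
  unfold block FN.bk
  rw [shell_eq]

theorem result {ν q ε L : ℝ} (hν : 0 < ν) (hq : 2 < q) (hε : 0 < ε) (hL : 1 < L) (K m : ℕ)
    (c : ℕ → (Fin 3 → ℤ) → Fin 3 → ℂ) (hc : ∀ j ≤ m, State q (c j)) :
    ∃ (u : ℝ → V → V) (p : ℝ → V → ℝ), (∀ T, IsSol ν T u p) ∧
      (∃ S : Finset (Fin 3 → ℤ), ∀ k ∉ S, ∀ i, fr (fun x => u 0 x i) k = 0) ∧
      (∀ k : Fin 3 → ℤ, (∀ j, |k j| ≤ K) → ∀ i, fr (fun x => u 0 x i) k = c 0 k i) ∧
      (∃ a b : ℕ → ℝ, a 0 = 0 ∧ (∀ j, a j < b j ∧ L * a j ≤ b j) ∧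
        (∀ j < m, b j < a (j + 1)) ∧ b m < ε ∧
        ∀ j ≤ m, ∀ t ∈ Icc (a j) (b j), Near q ε (u t) (c j)) ∧
      ∀ t, ε ≤ t → energy (u t) ≤ ε := by
  obtain ⟨u, p, h1, h2, h3, ⟨a, b, a0, hab, hba, hbm, h4⟩, h5⟩ :=
    FN.main_FB hν (c := c) m (fun j hj k => funext fun i => (hc j hj).real k i)
      (fun j hj => (hc j hj).mean) (fun j hj k => (hc j hj).div k) K hq hε hL
      (fun j hj => by have := (hc j hj).fin; rwa [block_eq] at this)
  refine ⟨u, p, h1, h3, fun k hk i => h2 k ((N_le_iff k K).2 hk) i,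
    ⟨a, b, a0, fun j => (hab j).2, hba, hbm, fun j hj t ht => ?_⟩, h5⟩
  have := (h4 j hj t ht).2
  unfold Near
  rwa [block_eq]

end Pool.Agent.Results.MP_6bf1e5_an.VisitsAllStates
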