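import Pool.Agent.X6.VA.Fin

/-!
Regularity criteria for the three-dimensional Navier-Stokes equations on the torus which average the
stretching of the vorticity over ARCS OF VORTEX LINES.

The classical geometric criteria (Constantin and Fefferman, Beirao da Veiga and Berselli, Chae, ...)
bound the stretching rate `α = ξ · (ξ · ∇) u`, `ξ = ω / |ω|`, pointwise, or assume smoothness of the
direction `ξ` in all directions. Here the bound is required only in the mean over arcs of vortex
lines, and different vortex lines are not compared at all.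

Notation. `V = Fin 3 → ℝ`; `vort v = ω` is the curl of `v`, `gradSq v = |∇v|²`,
`stretchRate v = ω · (ω · ∇) v = α |ω|²` (library `Pool.Agent.W268.NS.Defs`); `vsq v = |ω|²`,
`vgrad v = |∇ω|²` (`Pool.Agent.X6.VA.Int`); `vabs v = |ω|` and `exc κ ν f v` is the excess
`(α - f) |ω|² - κ ν |∇ω|²` (`Pool.Agent.X6.VA.Prod`); `vvar v = |(ω · ∇) ω|`
(`Pool.Agent.X6.VA.Var`). `IsCurve w X` means `X' = w(X)` on `ℝ`; for `w = ω` the curve `X` is a
vortex line and its arc length is `ds = |ω| dr`, so that the integral of `stretchRate / |ω|` over an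
arc of the parameter `r` is `∫ α ds`, the rate at which the arc gets longer when it moves with the
fluid, and the integral of `vvar` is the length of the curve which is described by the vector `ω`.

`ArcsIn Ω G X` (`Pool.Agent.X6.VA.Arc`): `∫ G(X(r)) dr ≤ 0` over every maximal finite arc of `X` in
`Ω`, and if all of `X` is in `Ω`, then the infimum over `τ > 0` of `(1/τ) ∫_0^τ G(X(r)) dr` is `≤ 0`.

`VarIn Ω M K v X` (`Pool.Agent.X6.VA.Var`): `2 M + ∫ |(ω · ∇) ω| dr ≤ K ∫ |ω|² dr = K ∫ |ω| ds` over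
every maximal finite arc of `X` in `Ω`, and if all of `X` is in `Ω`, the same without `2 M` in the
mean over long arcs.

The three conditions (`Pool.Agent.X6.VA.Fin`), all for almost all `x` only:
* `MeansAlong κ ν M f v`: there are ANY smooth periodic divergence-free field `w` (for instance `ω`
  or `v`) and ANY open periodic set `Ω` with `ArcsIn Ω (exc κ ν f v)` for the trajectories of `w`, and
  `exc κ ν f v ≤ M |∇v|²` outside `Ω` (automatic if `Ω` is the set where `|ω| > M / 2`);
* `ArcLengths κ ν M f v`: for every level `lam > M`, every maximal arc of a vortex line on which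
  `|ω| > lam` gets longer at most at the rate `∫ (f + κ ν |∇ω|² / |ω|²) ds`;
* `SlowVariation M K v`: `VarIn` for the arcs of the vortex lines on which `|ω| > M`.

Proof: a maximal ergodic inequality and Poincare recurrence for the flow of `ω` (of `w`), which
preserves the volume, show that the mean conditions bound the production of enstrophy. In the
third criterion the stretching over an arc is integrated by parts along the arc, and the time
integrability of the maximum of `|u|` (Foias, Guillope, Temam; proved in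
`Pool.Agent.X6.VA.Fgt`) is used: no condition on the velocity remains.
-/

open MeasureTheory Set H459R3.NS Pool.Agent.X6.VA
open scoped ENNReal

set_option autoImplicit false

namespace Pool.Agent.Results.MP_6bf1e5_an.VortexArcs

/-- Let `3/2 < p ≤ ∞`, `3/p + 2/q = 2`, `ν > 0`, `0 ≤ κ < 1`, and let `(u, P)` be a smooth
`1`-periodic solution of the Navier-Stokes equations with viscosity `ν` on `[0, T) × ℝ³`. Let `β^q`
and `M` be integrable on `(0, T)`.

(1) If for almost every `t ∈ (0, T)` there is a periodic Borel function `f ≥ 0` with `L^p` norm at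
most `β(t)` such that `u(t)` satisfies `MeansAlong` or `ArcLengths` with `κ, ν, M(t), f`, then
`∫ |∇u(t)|² ≤ ∫ |∇u(0)|² exp (C (∫ β^q + ∫ M))`, with `C` depending only on `p, q, ν, κ`, and `u` is
bounded on `[0, T) × ℝ³`, so that `T` is not a blow-up time.

(2) Let `K ≥ 0`. If for almost every `t ∈ (0, T)` the field `u(t)` satisfies `SlowVariation` with
`M(t), K` (or the condition of (1)), then `u` is bounded on `[0, T) × ℝ³`. -/
theorem result {p : ℝ≥0∞} (hp : 3 / 2 < p) {q : ℝ} (hpq : 3 * (p⁻¹).toReal + 2 / q = 2)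
    {ν κ : ℝ} (hν : 0 < ν) (hκ0 : 0 ≤ κ) (hκ : κ < 1) :
    (∃ C : ℝ, 0 ≤ C ∧ ∀ (T : ℝ) (u : ℝ → V → V) (P : ℝ → V → ℝ) (β M : ℝ → ℝ), IsSol ν T u P →
      IntegrableOn (fun t => β t ^ q) (Ioo 0 T) → IntegrableOn M (Ioo 0 T) →
      (∀ᵐ t ∂(volume.restrict (Ioo 0 T)), 0 ≤ β t ∧ 0 ≤ M t ∧ ∃ f : V → ℝ, Measurable f ∧
        Per f ∧ (∀ x, 0 ≤ f x) ∧ eLpNorm f p (volume.restrict cube) ≤ ENNReal.ofReal (β t) ∧
        (MeansAlong κ ν (M t) f (u t) ∨ ArcLengths κ ν (M t) f (u t))) →
      (∀ t ∈ Ico 0 T, enstrophy (u t) ≤ enstrophy (u 0) * Real.exp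
        (C * ((∫ τ in Ioo 0 T, β τ ^ q) + ∫ τ in Ioo 0 T, M τ))) ∧
      ∃ B, ∀ t ∈ Ico 0 T, ∀ x i, |u t x i| ≤ B) ∧
    ∀ (T K : ℝ) (u : ℝ → V → V) (P : ℝ → V → ℝ) (β M : ℝ → ℝ), 0 ≤ K → IsSol ν T u P →
      IntegrableOn (fun t => β t ^ q) (Ioo 0 T) → IntegrableOn M (Ioo 0 T) →
      (∀ᵐ t ∂(volume.restrict (Ioo 0 T)), 0 ≤ β t ∧ 0 ≤ M t ∧ (SlowVariation (M t) K (u t) ∨
        ∃ f : V → ℝ, Measurable f ∧ Per f ∧ (∀ x, 0 ≤ f x) ∧
          eLpNorm f p (volume.restrict cube) ≤ ENNReal.ofReal (β t) ∧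
          (MeansAlong κ ν (M t) f (u t) ∨ ArcLengths κ ν (M t) f (u t)))) →
      ∃ B, ∀ t ∈ Ico 0 T, ∀ x i, |u t x i| ≤ B :=
  Pool.Agent.X6.VA.final hp hpq hν hκ0 hκ

end Pool.Agent.Results.MP_6bf1e5_an.VortexArcs
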